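import Pool.Agent.Helper33.HM.Names

/-!
# The maximum principle for witnesses
-/

set_option autoImplicit false

namespace Pool.Agent.Helper33.HM

universe u

section LP

variable {B : Type u} [CompleteBooleanAlgebra B]

theorem h53_le_of_pieces {a : ℕ → B} (hsup : ⨆ i, a i = ⊤) {x y : B}
    (h : ∀ i, a i ⊓ x ≤ y) : x ≤ y := by
  have h1 : x = (⨆ i, a i) ⊓ x := by rw [hsup, top_inf_eq]
  rw [h1, iSup_inf_eq]
  exact iSup_le h

theorem h53_mix_inf {a : ℕ → B} (hdisj : ∀ i j, i ≠ j → a i ⊓ a j = ⊥) (g : ℕ → B) (i : ℕ) :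
    a i ⊓ (⨆ j, a j ⊓ g j) = a i ⊓ g i := by
  apply le_antisymm
  · rw [inf_iSup_eq]
    refine iSup_le fun j => ?_
    by_cases hij : i = j
    · subst hij
      exact inf_le_right
    · rw [← inf_assoc, hdisj i j hij, bot_inf_eq]
      exact bot_le
  · exact le_inf inf_le_left (le_iSup (fun j => a j ⊓ g j) i)

theorem h53_compl_mix {a : B} {x y : B} (h : a ⊓ x = a ⊓ y) : a ⊓ yᶜ ≤ xᶜ := by
  rw [le_compl_iff_disjoint_right, disjoint_iff]
  have h1 : a ⊓ yᶜ ⊓ x = (a ⊓ x) ⊓ yᶜ := by rw [inf_right_comm]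
  rw [h1, h, inf_assoc, inf_compl_eq_bot, inf_bot_eq]

theorem max_principle (hc : CCC B) (E : (ℕ → B) → B) (P : ℕ → List Bool → B)
    (h : (⨆ F : ℕ → List Bool → B,
      (⨅ k : ℕ, pruned (F k)) ⊓ covV E F ⊓ ⨅ k : ℕ, ⨅ n : ℕ, nwdV (F k) (P n)) = ⊤) :
    ∃ F : ℕ → List Bool → B, (∀ k, IsPr (F k)) ∧ covV E F = ⊤ ∧
      ∀ k n, nwdV (F k) (P n) = ⊤ := by
  obtain ⟨a, -, hD, -, hdisj, hsup⟩ := exists_partition hc isSub_univ
    (fun c => ∃ F : ℕ → List Bool → B, c ≤ (⨅ k : ℕ, pruned (F k)) ⊓ covV E F ⊓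
      ⨅ k : ℕ, ⨅ n : ℕ, nwdV (F k) (P n))
    (by
      intro b _ hb
      obtain ⟨F, hF⟩ := exists_inf_ne_bot hb (h ▸ le_top : b ≤ _)
      exact ⟨_, trivial, hF, inf_le_left, F, inf_le_right⟩)
    ⟨fun _ _ => ⊥, bot_le⟩ (e := ⊤) trivial
  choose G hG using hD
  have hG1 : ∀ i k, a i ≤ pruned (G i k) := fun i k =>
    (hG i).trans (inf_le_left.trans (inf_le_left.trans (iInf_le _ k)))
  have hG2 : ∀ i, a i ≤ covV E (G i) := fun i => (hG i).trans (inf_le_left.trans inf_le_right)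
  have hG3 : ∀ i k n, a i ≤ nwdV (G i k) (P n) := fun i k n =>
    (hG i).trans (inf_le_right.trans ((iInf_le _ k).trans (iInf_le _ n)))
  let F : ℕ → List Bool → B := fun k σ => ⨆ i, a i ⊓ G i k σ
  have hF : ∀ i k σ, a i ⊓ F k σ = a i ⊓ G i k σ := fun i k σ =>
    h53_mix_inf hdisj (fun i => G i k σ) i
  refine ⟨F, ?_, ?_, ?_⟩
  · intro k σ
    have h1 : ∀ i, a i ≤ iffV (G i k σ) (G i k (σ ++ [false]) ⊔ G i k (σ ++ [true])) :=
      fun i => (hG1 i k).trans (iInf_le _ σ)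
    apply le_antisymm
    · refine h53_le_of_pieces hsup fun i => ?_
      rw [hF]
      have h2 : a i ⊓ G i k σ ≤ G i k (σ ++ [false]) ⊔ G i k (σ ++ [true]) :=
        le_himp_iff.1 ((h1 i).trans inf_le_left)
      calc a i ⊓ G i k σ ≤ a i ⊓ (G i k (σ ++ [false]) ⊔ G i k (σ ++ [true])) :=
            le_inf inf_le_left h2
        _ = a i ⊓ F k (σ ++ [false]) ⊔ a i ⊓ F k (σ ++ [true]) := by
            rw [inf_sup_left, hF, hF]
        _ ≤ _ := sup_le_sup inf_le_right inf_le_right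
    · refine h53_le_of_pieces hsup fun i => ?_
      have h2 : a i ⊓ (G i k (σ ++ [false]) ⊔ G i k (σ ++ [true])) ≤ G i k σ :=
        le_himp_iff.1 ((h1 i).trans inf_le_right)
      calc a i ⊓ (F k (σ ++ [false]) ⊔ F k (σ ++ [true]))
          = a i ⊓ (G i k (σ ++ [false]) ⊔ G i k (σ ++ [true])) := by
            rw [inf_sup_left, inf_sup_left, hF, hF]
        _ ≤ a i ⊓ G i k σ := le_inf inf_le_left h2
        _ = a i ⊓ F k σ := (hF i k σ).symm
        _ ≤ _ := inf_le_right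
  · rw [eq_top_iff]
    refine le_iInf fun x => ?_
    rw [le_himp_iff, top_inf_eq]
    refine h53_le_of_pieces hsup fun i => ?_
    have h1 : a i ⊓ E x ≤ ⨆ k : ℕ, memV x (G i k) :=
      le_himp_iff.1 ((hG2 i).trans (iInf_le _ x))
    calc a i ⊓ E x ≤ a i ⊓ ⨆ k : ℕ, memV x (G i k) := le_inf inf_le_left h1
      _ = ⨆ k : ℕ, a i ⊓ memV x (G i k) := inf_iSup_eq _ _
      _ ≤ ⨆ k : ℕ, memV x (F k) := by
          refine iSup_mono fun k => le_iInf fun σ => ?_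
          rw [le_himp_iff]
          have h2 : memV x (G i k) ⊓ cyl x σ ≤ G i k σ := le_himp_iff.1 (iInf_le _ σ)
          calc a i ⊓ memV x (G i k) ⊓ cyl x σ ≤ a i ⊓ G i k σ := by
                rw [inf_assoc]
                exact inf_le_inf_left _ h2
            _ = a i ⊓ F k σ := (hF i k σ).symm
            _ ≤ _ := inf_le_right
  · intro k n
    rw [eq_top_iff]
    refine le_iInf fun σ => ?_
    rw [le_himp_iff, top_inf_eq]
    refine h53_le_of_pieces hsup fun i => ?_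
    have h1 : a i ⊓ P n σ ≤ ⨆ τ : List Bool, ⨆ _ : σ <+: τ, P n τ ⊓ (G i k τ)ᶜ :=
      le_himp_iff.1 ((hG3 i k n).trans (iInf_le _ σ))
    calc a i ⊓ P n σ ≤ a i ⊓ ⨆ τ : List Bool, ⨆ _ : σ <+: τ, P n τ ⊓ (G i k τ)ᶜ :=
          le_inf inf_le_left h1
      _ = ⨆ τ : List Bool, ⨆ _ : σ <+: τ, a i ⊓ (P n τ ⊓ (G i k τ)ᶜ) := by
          rw [inf_iSup₂_eq]
      _ ≤ _ := by
          refine iSup₂_mono fun τ _ => ?_
          refine le_inf (inf_le_right.trans inf_le_left) ?_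
          calc a i ⊓ (P n τ ⊓ (G i k τ)ᶜ) ≤ a i ⊓ (G i k τ)ᶜ := inf_le_inf_left _ inf_le_right
            _ ≤ (F k τ)ᶜ := h53_compl_mix (hF i k τ)

end LP

end Pool.Agent.Helper33.HM
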